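import Pool.Agent.Helper99.FV.Forced

namespace Pool.Agent.Results.MP_f92f5b_al.ContainingSet

open Pool.Agent.Helper99.FV

/-- For every `A ⊆ ℕ`, the Frobenius variety of all numerical semigroups containing `A` satisfies
the Wilf-type inequality exactly when `1 ∈ A`, or `A ⊆ {0}` and the variety of all numerical
semigroups satisfies it (Wilf's conjecture). -/
theorem result (A : Set ℕ) :
    IsFrobeniusVariety {S : AddSubmonoid ℕ | IsNumerical S ∧ A ⊆ (S : Set ℕ)} ∧
    (WilfType {S : AddSubmonoid ℕ | IsNumerical S ∧ A ⊆ (S : Set ℕ)} ↔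
      1 ∈ A ∨ (A ⊆ {0} ∧ WilfType {S : AddSubmonoid ℕ | IsNumerical S})) :=
  ⟨containing_isFrobeniusVariety A, containing_iff A⟩

end Pool.Agent.Results.MP_f92f5b_al.ContainingSet
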