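import Pool.Agent.Helper29.Wilf.Core

/-!
Numerical semigroups which lie in every Frobenius variety other than `{ℕ}` satisfying the
Wilf-type inequality.
-/

set_option autoImplicit false

namespace Pool.Agent.Results.MP_f92f5b_al.ForcedMembers

open Pool.Agent.Helper29.Wilf

/-- A Frobenius variety `V ≠ {ℕ}` satisfying the Wilf-type inequality contains every numerical
semigroup containing `3`, and every numerical semigroup whose elements up to `k m` are the
multiples of `m` and which contains all numbers from `(k + 1) m` on. -/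
theorem result (V : Set (Set ℕ)) (hV : IsFrobeniusVariety V) (hne : V ≠ {Set.univ})
    (hW : WilfType V) (S : Set ℕ) (hS : IsNumSgp S)
    (h : 3 ∈ S ∨ ∃ m k : ℕ, 1 ≤ m ∧ 1 ≤ k ∧ (∀ n, n ≤ k * m → (n ∈ S ↔ m ∣ n)) ∧
      ∀ n, (k + 1) * m ≤ n → n ∈ S) : S ∈ V := by
  rcases h with h | ⟨m, k, hm, hk, h1, h2⟩
  · exact mem_of_three hV hne hW hS h
  · exact mem_of_stair hV hne hW hm hk h1 h2

end Pool.Agent.Results.MP_f92f5b_al.ForcedMembers
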