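import Pool.Agent.Helper99.FV.NoLeast

namespace Pool.Agent.Results.MP_f92f5b_al.NoLeast

open Pool.Agent.Helper99.FV

/-- There are two Frobenius varieties, each satisfying the Wilf-type inequality exactly when
Wilf's conjecture holds, such that no Frobenius variety contained in both, other than `{ℕ}`,
satisfies it. They are given by `6, 9, 10, 11 ∈ S ⟹ 13 ∈ S` and by
`6, 9, 10, 11, 13 ∈ S ⟹ 14 ∈ S`. -/
theorem result :
    ∃ V₁ V₂ : Set (AddSubmonoid ℕ),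
      V₁ = {S | IsNumerical S ∧ (6 ∈ S → 9 ∈ S → 10 ∈ S → 11 ∈ S → 13 ∈ S)} ∧
      V₂ = {S | IsNumerical S ∧ (6 ∈ S → 9 ∈ S → 10 ∈ S → 11 ∈ S → 13 ∈ S → 14 ∈ S)} ∧
      IsFrobeniusVariety V₁ ∧ IsFrobeniusVariety V₂ ∧
      (WilfType V₁ ↔ WilfType {S : AddSubmonoid ℕ | IsNumerical S}) ∧
      (WilfType V₂ ↔ WilfType {S : AddSubmonoid ℕ | IsNumerical S}) ∧
      ∀ V : Set (AddSubmonoid ℕ), IsFrobeniusVariety V → V ⊆ V₁ ∩ V₂ → V ≠ {⊤} →
        ¬ WilfType V :=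
  ⟨VA, VB, rfl, rfl, VA_variety, VB_variety, VA_wilf, VB_wilf,
    fun _ hV hsub hne => no_common hV hsub hne⟩

end Pool.Agent.Results.MP_f92f5b_al.NoLeast
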