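import Pool.Agent.Helper99.FV.Cont

namespace Pool.Agent.Results.MP_f92f5b_al.SymmetricOmissions

open Pool.Agent.Helper99.FV

/-- Let `X` be any set of symmetric numerical semigroups of multiplicity at least 3. The family of
all numerical semigroups outside `X` is a Frobenius variety, and it satisfies the Wilf-type
inequality exactly when Wilf's conjecture holds and `m(C) - 2 ≤ (e(C) - 2) (g(C) - m(C) + 1)` for
every `C ∈ X`. Consequently there is an injective map from the subsets of `ℕ` to the Frobenius
varieties all of whose values satisfy the inequality exactly when Wilf's conjecture holds. -/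
theorem result :
    (∀ X : Set (AddSubmonoid ℕ), (∀ C ∈ X, IsNumerical C ∧ IsSymmetric C ∧ 3 ≤ mult C) →
      IsFrobeniusVariety {S : AddSubmonoid ℕ | IsNumerical S ∧ S ∉ X} ∧
      (WilfType {S : AddSubmonoid ℕ | IsNumerical S ∧ S ∉ X} ↔
        WilfType {S : AddSubmonoid ℕ | IsNumerical S} ∧ ∀ C ∈ X,
          (mult C : ℤ) - 2 ≤
            (((minGens C).ncard : ℤ) - 2) * ((genus C : ℤ) - (mult C : ℤ) + 1))) ∧
    (∃ Φ : Set ℕ → Set (AddSubmonoid ℕ), Function.Injective Φ ∧
      ∀ M, IsFrobeniusVariety (Φ M) ∧
        (WilfType (Φ M) ↔ WilfType {S : AddSubmonoid ℕ | IsNumerical S})) :=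
  ⟨fun _ hX => ⟨without_isFrobeniusVariety hX, without_wilfType_iff hX⟩, continuum_part⟩

end Pool.Agent.Results.MP_f92f5b_al.SymmetricOmissions
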